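import Mathlib

set_option autoImplicit false

open Subgroup Monoid

namespace Pool.Agent.Results.MP_4681e4_al.Counter

/-- every subgroup is finitely generated -/
def Slender {G : Type*} [Group G] (C : Subgroup G) : Prop := ∀ K ≤ C, K.FG

/-- `G = A *_C B`, nontrivially: the natural map from the free product `A ∗ B` onto `G` is
surjective and its kernel is the normal closure of the amalgamating relators. -/
def IsAmalgam {G : Type*} [Group G] (A B C : Subgroup G) : Prop :=
  C ≤ A ∧ C ≤ B ∧ C ≠ A ∧ C ≠ B ∧ Function.Surjective (Coprod.lift A.subtype B.subtype) ∧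
    (Coprod.lift A.subtype B.subtype).ker = normalClosure
      {x | ∃ (a : A) (b : B), (a : G) ∈ C ∧ (a : G) = b ∧ x = Coprod.inl a * (Coprod.inr b)⁻¹}

/-- `G` splits as an HNN extension over `C` with base a subgroup `H` containing `C`. -/
def IsHNN {G : Type*} [Group G] (C : Subgroup G) : Prop :=
  ∃ (H : Subgroup G) (_ : C ≤ H) (D : Subgroup H) (φ : C.subgroupOf H ≃* D)
    (e : HNNExtension H (C.subgroupOf H) D φ ≃* G), ∀ h : H, e (HNNExtension.of h) = h

open Classical in
noncomputable def pm {H : Type*} [Group H] (t : H) (p : ℤ → Prop) (k : H) : Equiv.Perm (H × ℤ) where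
  toFun x := (if p x.2 then t ^ (-x.2) * k * t ^ x.2 * x.1 else x.1, x.2)
  invFun x := (if p x.2 then t ^ (-x.2) * k⁻¹ * t ^ x.2 * x.1 else x.1, x.2)
  left_inv x := by by_cases h : p x.2 <;> simp [h, mul_assoc]
  right_inv x := by by_cases h : p x.2 <;> simp [h, mul_assoc]

lemma hnn_center {K : Type*} [Group K] {A D : Subgroup K} (φ : A ≃* D) (hA : A = ⊥)
    (z : HNNExtension K A D φ) (hz : HNNExtension.t * z = z * HNNExtension.t) (h2 : z * z = 1) :
    z = 1 := by
  classical
  let H := HNNExtension K A D φ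
  let t : H := HNNExtension.t
  let τ : Equiv.Perm (H × ℤ) := (Equiv.refl H).prodCongr (Equiv.addRight 1)
  let f : (ℤ → Prop) → K →* Equiv.Perm (H × ℤ) := fun p => MonoidHom.mk'
    (fun k => pm t p (HNNExtension.of k)) fun a b => Equiv.ext fun x => by
      by_cases h : p x.2 <;> simp [pm, h, mul_assoc]
  let Ψ : (ℤ → Prop) → H →* Equiv.Perm (H × ℤ) := fun p => HNNExtension.lift (f p) τ fun a => by
    obtain rfl : a = 1 := Subtype.ext (mem_bot.1 (hA.le a.2))
    simp
  have hof : ∀ p k, Ψ p (HNNExtension.of k) = pm t p (HNNExtension.of k) := fun p k =>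
    HNNExtension.lift_of _ _ _ _
  have ht : ∀ p, Ψ p t = τ := fun p => HNNExtension.lift_t _ _ _
  have key : ∀ w : H, ∃ R d : ℤ, 0 ≤ R ∧ ∀ (p : ℤ → Prop) (j : ℤ) (h : H),
      ((∀ i, j - R ≤ i → i ≤ j + R → p i) → Ψ p w (h, j) = (t ^ (-(j + d)) * w * t ^ j * h, j + d)) ∧
      ((∀ i, j - R ≤ i → i ≤ j + R → ¬ p i) → Ψ p w (h, j) = (h, j + d)) := by
    intro w
    induction w using HNNExtension.induction_on with
    | of k =>
      refine ⟨0, 0, le_rfl, fun p j h => ⟨fun hp => ?_, fun hp => ?_⟩⟩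
      · rw [hof]; simp [pm, hp j (by omega) (by omega)]
      · rw [hof]; simp [pm, hp j (by omega) (by omega)]
    | t =>
      refine ⟨0, 1, le_rfl, fun p j h => ⟨fun _ => ?_, fun _ => ?_⟩⟩
      · rw [ht]
        refine Prod.ext ?_ rfl
        show h = t ^ (-(j + 1)) * t * t ^ j * h
        group
      · rw [ht]; rfl
    | mul x y hx hy =>
      obtain ⟨R, d, hR, hx⟩ := hx
      obtain ⟨R', d', hR', hy⟩ := hy
      have := le_abs_self d'
      have := neg_abs_le d'
      refine ⟨R + R' + |d'|, d + d', by positivity, fun p j h => ⟨fun hp => ?_, fun hp => ?_⟩⟩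
      · rw [map_mul, Equiv.Perm.mul_apply, (hy p j h).1 fun i _ _ => hp i (by omega) (by omega),
          (hx p _ _).1 fun i _ _ => hp i (by omega) (by omega)]
        refine Prod.ext ?_ (by simp only; ring)
        simp only
        group
      · rw [map_mul, Equiv.Perm.mul_apply, (hy p j h).2 fun i _ _ => hp i (by omega) (by omega),
          (hx p _ _).2 fun i _ _ => hp i (by omega) (by omega)]
        refine Prod.ext rfl (by simp only; ring)
    | inv x hx =>
      obtain ⟨R, d, hR, hx⟩ := hx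
      have := le_abs_self d
      have := neg_abs_le d
      refine ⟨R + |d|, -d, by positivity, fun p j h => ⟨fun hp => ?_, fun hp => ?_⟩⟩
      · rw [map_inv, Equiv.Perm.inv_eq_iff_eq, (hx p _ _).1 fun i _ _ => hp i (by omega) (by omega)]
        refine Prod.ext ?_ (by simp only; ring)
        simp only
        group
      · rw [map_inv, Equiv.Perm.inv_eq_iff_eq, (hx p _ _).2 fun i _ _ => hp i (by omega) (by omega)]
        refine Prod.ext rfl (by simp only; ring)
  obtain ⟨R, d, hR, hk⟩ := key z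
  have hτ : ∀ (n : ℕ) (h : H) (j : ℤ), (τ ^ n) (h, j) = (h, j + n) := fun n h j => by
    induction n with
    | zero => simp
    | succ n ih => rw [pow_succ', Equiv.Perm.mul_apply, ih]; simp [τ, add_assoc]
  obtain ⟨n, hn⟩ := Int.eq_ofNat_of_zero_le (show 0 ≤ 2 * R + 1 by omega)
  have hc : Ψ (· ≤ R) z * τ ^ n = τ ^ n * Ψ (· ≤ R) z := by
    rw [← ht (· ≤ R), ← map_pow, ← map_mul, ← map_mul]
    exact congrArg _ ((show Commute t z from hz).symm.pow_right n)
  have h3 := congrArg (fun σ : Equiv.Perm (H × ℤ) => (σ (1, 0)).1) hc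
  simp only [Equiv.Perm.mul_apply] at h3
  rw [hτ, (hk _ _ _).2 fun i _ _ => by omega, (hk _ _ _).1 fun i _ _ => by omega, hτ] at h3
  have h4 := congrArg (fun w => (Ψ (fun _ => False) w (1, 0)).2) h2
  simp only [map_mul, Equiv.Perm.mul_apply, map_one] at h4
  rw [(hk _ _ _).2 fun i _ _ => id, (hk _ _ _).2 fun i _ _ => id] at h4
  have hd : d = 0 := by simp at h4; omega
  simpa [hd] using h3.symm

lemma free_center {A B : Type*} [Group A] [Group B] {a : A} {b : B} (ha : a ≠ 1) (hb : b ≠ 1) :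
    (Coprod.inl a * Coprod.inr b : Coprod A B) ≠ Coprod.inr b * Coprod.inl a := by
  classical
  let f : A →* Equiv.Perm (A ⊕ B) := (Equiv.Perm.sumCongrHom A B).comp
    ((MonoidHom.inl _ _).comp (MulAction.toPermHom A A))
  let g : B →* Equiv.Perm (A ⊕ B) := (MulAut.conj (Equiv.swap (Sum.inl 1) (Sum.inr 1))).toMonoidHom.comp
    ((Equiv.Perm.sumCongrHom A B).comp ((MonoidHom.inr _ _).comp (MulAction.toPermHom B B)))
  intro h
  have := congrArg (fun w => Coprod.lift f g w (Sum.inl 1)) h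
  simp [f, g, Equiv.swap_apply_of_ne_of_ne, ha, hb] at this

def sh : Equiv.Perm ℤ := Equiv.addRight 1

def L : Subgroup (Equiv.Perm ℤ) := closure {sh, Equiv.swap 0 1}

abbrev A0 : Type := Multiplicative (ZMod 2) × L

def C0 (n : ℕ) : Subgroup A0 where
  carrier := {x | ∀ i : ℤ, i ∉ Finset.Ico (0 : ℤ) (2 * n) → x.2.1 i = i}
  one_mem' := fun _ _ => rfl
  mul_mem' := fun {a b} ha hb i hi => by
    show a.2.1 (b.2.1 i) = i
    rw [hb i hi, ha i hi]
  inv_mem' := fun {a} ha i hi => by
    show a.2.1⁻¹ i = i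
    rw [Equiv.Perm.inv_eq_iff_eq, ha i hi]

def z0 : A0 := (Multiplicative.ofAdd 1, 1)

lemma mem_C0_zero {x : A0} : x ∈ C0 0 ↔ x = 1 ∨ x = z0 := by
  constructor
  · intro h
    have h1 : x.2 = 1 := Subtype.ext (Equiv.ext fun i => h i (by simp))
    have h2 : ∀ y : Multiplicative (ZMod 2), y = 1 ∨ y = Multiplicative.ofAdd 1 := by decide
    exact (h2 x.1).imp (fun h => Prod.ext h h1) fun h => Prod.ext h h1
  · rintro (rfl | rfl) <;> exact fun _ _ => rfl

lemma C0_lt (n : ℕ) : C0 n < C0 (n + 1) := by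
  refine lt_of_le_of_ne (fun x hx i hi => hx i fun h => hi ?_) fun h => ?_
  · simp only [Finset.mem_Ico] at h ⊢
    push_cast; omega
  · have hs : sh ∈ L := subset_closure (by simp)
    have h1 : sh ^ (2 * n) * Equiv.swap 0 1 * (sh ^ (2 * n))⁻¹ ∈ L :=
      L.mul_mem (L.mul_mem (L.pow_mem hs _) (subset_closure (by simp))) (L.inv_mem (L.pow_mem hs _))
    rw [← Equiv.swap_apply_apply] at h1
    have e : ∀ i, (sh ^ (2 * n)) i = i + 2 * n := fun i => by simp [sh]
    rw [e, e] at h1
    have h2 : ((1, ⟨_, h1⟩) : A0) ∈ C0 (n + 1) := fun i hi => by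
      simp only [Finset.mem_Ico] at hi
      push_cast at hi
      exact Equiv.swap_apply_of_ne_of_ne (by omega) (by omega)
    rw [← h] at h2
    have := h2 (0 + 2 * n) (by simp)
    simp at this

instance (n : ℕ) : Finite (C0 n) := by
  classical
  have hm : ∀ (x : C0 n) (i : Finset.Ico (0 : ℤ) (2 * n)), x.1.2.1 i ∈ Finset.Ico (0 : ℤ) (2 * n) := by
    intro x i
    by_contra h'
    exact h' (by rw [x.1.2.1.injective (x.2 _ h')]; exact i.2)
  have : Finite (Multiplicative (ZMod 2)) := inferInstanceAs (Finite (ZMod 2))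
  refine Finite.of_injective (β := Multiplicative (ZMod 2) ×
    (Finset.Ico (0 : ℤ) (2 * n) → Finset.Ico (0 : ℤ) (2 * n)))
    (fun x : C0 n => (x.1.1, fun i => ⟨_, hm x i⟩)) fun x y h => ?_
  have h1 := congrArg Prod.fst h
  refine Subtype.ext (Prod.ext h1 (Subtype.ext (Equiv.ext fun i => ?_)))
  by_cases hi : i ∈ Finset.Ico (0 : ℤ) (2 * n)
  · exact congrArg (fun σ => (σ.2 ⟨i, hi⟩).1) h
  · rw [x.2 i hi, y.2 i hi]

abbrev G : Type := HNNExtension A0 (C0 0) (C0 0) (MulEquiv.refl _)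

def ι : A0 →* G := HNNExtension.of
def t : G := HNNExtension.t
def A : Subgroup G := ι.range
def C (n : ℕ) : Subgroup G := (C0 n).map ι
def B (n : ℕ) : Subgroup G := closure (C n ∪ {t})

lemma ι_inj : Function.Injective ι := HNNExtension.of_injective _

lemma t_comm {x : A0} (h : x ∈ C0 0) : t * ι x = ι x * t := HNNExtension.t_mul_of ⟨x, h⟩

lemma t_not : t ∉ A := by
  rintro ⟨x, hx⟩
  have := congrArg (HNNExtension.lift (φ := MulEquiv.refl (C0 0)) (1 : A0 →* Multiplicative ℤ)
    (Multiplicative.ofAdd 1) (by simp)) hx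
  rw [ι, t, HNNExtension.lift_of, HNNExtension.lift_t] at this
  exact absurd (congrArg Multiplicative.toAdd this) (by simp)

lemma z_central (g : G) : ι z0 * g = g * ι z0 := by
  induction g using HNNExtension.induction_on with
  | of x =>
    show ι z0 * ι x = ι x * ι z0
    rw [← map_mul, ← map_mul]
    exact congrArg ι (Prod.ext (mul_comm _ _) (by simp [z0]))
  | t => exact (t_comm (mem_C0_zero.2 (Or.inr rfl))).symm
  | mul x y hx hy => exact (show Commute _ x from hx).mul_right hy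
  | inv x hx => exact (show Commute _ x from hx).inv_right

lemma z_ne : ι z0 ≠ 1 := fun h => absurd (congrArg Prod.fst (ι_inj (h.trans (map_one ι).symm))) (by decide)

lemma z_sq : ι z0 * ι z0 = 1 := by
  rw [← map_mul, ← map_one ι]; exact congrArg ι (Prod.ext (by decide) (by simp [z0]))

lemma C_lt (n : ℕ) : C n < C (n + 1) :=
  lt_of_le_of_ne (map_mono (C0_lt n).le) fun h => (C0_lt n).ne (map_injective ι_inj h)

lemma C_mono (n : ℕ) : C 0 ≤ C n := (strictMono_nat_of_lt_succ C_lt).monotone n.zero_le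

lemma C_le (n : ℕ) : C n ≤ A := map_le_range _ _

lemma eq_bot {C' : Subgroup G} (h : C' < C 0) : C' = ⊥ := by
  rw [eq_bot_iff]
  intro x hx
  obtain ⟨y, hy, rfl⟩ := h.le hx
  rcases mem_C0_zero.1 hy with rfl | rfl
  · simp
  · refine absurd (le_antisymm h.le ?_) h.ne
    rintro _ ⟨y, hy, rfl⟩
    rcases mem_C0_zero.1 hy with rfl | rfl
    · simp
    · exact hx

lemma gen (S : Subgroup G) (h1 : A ≤ S) (h2 : t ∈ S) (g : G) : g ∈ S := by
  induction g using HNNExtension.induction_on with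
  | of x => exact h1 ⟨x, rfl⟩
  | t => exact h2
  | mul x y hx hy => exact S.mul_mem hx hy
  | inv x hx => exact S.inv_mem hx

lemma fg : Group.FG G := by
  have h1 : Group.FG L := Group.closure_finite_fg _
  have h2 : Group.FG A := Group.fg_range ι
  obtain ⟨S, hS, hf⟩ := (fg_iff A).1 ((Group.fg_iff_subgroup_fg A).1 h2)
  refine Group.fg_iff.2 ⟨S ∪ {t}, ?_, hf.union (Set.finite_singleton _)⟩
  rw [eq_top_iff]
  exact fun g _ => gen _ (hS ▸ closure_mono Set.subset_union_left) (subset_closure (by simp)) g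

lemma slender (n : ℕ) : Slender (C n) := fun K hK => by
  have : Finite (C n) := Finite.of_surjective _ (ι.subgroupMap_surjective (C0 n))
  have : Finite K := Finite.of_injective _ (inclusion_injective hK)
  exact (Group.fg_iff_subgroup_fg K).1 inferInstance

lemma amalgam (n : ℕ) : IsAmalgam A (B n) (C n) := by
  have hCB : C n ≤ B n := fun x hx => subset_closure (Or.inl hx)
  have htB : t ∈ B n := subset_closure (Or.inr rfl)
  refine ⟨C_le n, hCB, fun h => (C_lt n).not_ge (h ▸ C_le (n + 1)),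
    fun h => t_not (C_le n (h ▸ htB)), fun g => gen (MonoidHom.range _)
      (fun a ha => ⟨Coprod.inl ⟨a, ha⟩, by simp⟩) ⟨Coprod.inr ⟨t, htB⟩, by simp⟩ g,
    le_antisymm (fun w hw => ?_) (normalClosure_le_normal ?_)⟩
  swap
  · rintro _ ⟨a, b, -, h, rfl⟩
    simp [h]
  set N := normalClosure {x : Coprod A (B n) | ∃ (a : A) (b : B n), (a : G) ∈ C n ∧ (a : G) = b ∧
    x = Coprod.inl a * (Coprod.inr b)⁻¹} with hN
  let q := QuotientGroup.mk' N
  have hq : ∀ c (hc : c ∈ C n), q (Coprod.inl ⟨c, C_le n hc⟩) = q (Coprod.inr ⟨c, hCB hc⟩) := by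
    intro c hc
    rw [← mul_inv_eq_one, ← map_inv, ← map_mul]
    exact (QuotientGroup.eq_one_iff _).2 (subset_normalClosure ⟨_, _, hc, rfl, rfl⟩)
  let I : G →* _ := HNNExtension.lift ((q.comp Coprod.inl).comp ι.rangeRestrict)
    (q (Coprod.inr ⟨t, htB⟩)) fun a => by
      have := hq (ι a) (C_mono n ⟨a, a.2, rfl⟩)
      show _ * q (Coprod.inl ⟨ι a, _⟩) = q (Coprod.inl ⟨ι a, _⟩) * _
      rw [this, ← map_mul, ← map_mul, ← map_mul, ← map_mul]
      exact congrArg (fun x => q (Coprod.inr x)) (Subtype.ext (t_comm a.2))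
  have hI1 : ∀ a : A, I a = q (Coprod.inl a) := by
    rintro ⟨_, x, rfl⟩
    exact HNNExtension.lift_of _ _ _ _
  have hI : I.comp (Coprod.lift A.subtype (B n).subtype) = q := by
    refine Coprod.hom_ext (MonoidHom.ext fun a => by simpa using hI1 a) (MonoidHom.ext ?_)
    rintro ⟨b, hb⟩
    show I b = q (Coprod.inr ⟨b, hb⟩)
    induction hb using closure_induction with
    | mem x hx =>
      rcases hx with hx | rfl
      · exact (hI1 ⟨x, C_le n hx⟩).trans (hq x hx)
      · exact HNNExtension.lift_t _ _ _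
    | one => exact (map_one I).trans (map_one (q.comp Coprod.inr)).symm
    | mul x y hx hy h1 h2 =>
      rw [map_mul, h1, h2]; exact (map_mul (q.comp Coprod.inr) ⟨x, hx⟩ ⟨y, hy⟩).symm
    | inv x hx h1 => rw [map_inv, h1]; exact (map_inv (q.comp Coprod.inr) ⟨x, hx⟩).symm
  have := DFunLike.congr_fun hI w
  rw [MonoidHom.comp_apply, show Coprod.lift A.subtype (B n).subtype w = 1 from hw, map_one] at this
  exact (QuotientGroup.eq_one_iff _).1 this.symm

lemma hnn (n : ℕ) : IsHNN (C n) := by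
  let H : Subgroup G := closure (A ∪ {x | t⁻¹ * x * t ∈ C n})
  have hA : A ≤ H := fun x hx => subset_closure (Or.inl hx)
  let D : Subgroup H := ((C n).comap (MulAut.conj t⁻¹).toMonoidHom).subgroupOf H
  have hD : ∀ x : H, x ∈ D ↔ t⁻¹ * x * t ∈ C n := fun x => by simp [D, mem_subgroupOf]
  let φ : (C n).subgroupOf H ≃* D :=
    { toFun := fun c => ⟨⟨t * c.1.1 * t⁻¹, subset_closure (Or.inr (by
          simpa [mul_assoc] using mem_subgroupOf.1 c.2))⟩,
        (hD _).2 (by simpa [mul_assoc] using mem_subgroupOf.1 c.2)⟩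
      invFun := fun d => ⟨⟨t⁻¹ * d.1.1 * t, hA (C_le n ((hD _).1 d.2))⟩, (hD _).1 d.2⟩
      left_inv := fun c => Subtype.ext (Subtype.ext (by simp [mul_assoc]))
      right_inv := fun c => Subtype.ext (Subtype.ext (by simp [mul_assoc]))
      map_mul' := fun a b => Subtype.ext (Subtype.ext (by simp [mul_assoc])) }
  let F : HNNExtension H _ D φ →* G := HNNExtension.lift H.subtype t fun a => by
    show t * a.1.1 = t * a.1.1 * t⁻¹ * t
    simp
  let I : G →* HNNExtension H _ D φ := HNNExtension.lift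
    (HNNExtension.of.comp (ι.codRestrict H fun x => hA ⟨x, rfl⟩)) HNNExtension.t fun a => by
      have := HNNExtension.t_mul_of (φ := φ) ⟨⟨ι a, hA ⟨a, rfl⟩⟩, C_mono n ⟨a, a.2, rfl⟩⟩
      refine this.trans (congrArg (fun x => HNNExtension.of x * HNNExtension.t) (Subtype.ext ?_))
      show t * ι a * t⁻¹ = ι a
      rw [t_comm a.2]; simp
  have hI1 : ∀ a (ha : a ∈ A), I a = HNNExtension.of ⟨a, hA ha⟩ := by
    rintro _ ⟨x, rfl⟩
    exact HNNExtension.lift_of _ _ _ _
  have hI2 : I t = HNNExtension.t := HNNExtension.lift_t _ _ _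
  have hF1 : ∀ h : H, F (HNNExtension.of h) = h := fun h => HNNExtension.lift_of _ _ _ _
  have hF2 : F HNNExtension.t = t := HNNExtension.lift_t _ _ _
  refine ⟨H, (C_le n).trans hA, D, φ, F.toMulEquiv I ?_ ?_, hF1⟩
  · refine HNNExtension.hom_ext (MonoidHom.ext ?_) (by simp [hF2, hI2])
    rintro ⟨b, hb⟩
    show I (F (HNNExtension.of ⟨b, hb⟩)) = HNNExtension.of ⟨b, hb⟩
    rw [hF1]
    show I b = _
    induction hb using closure_induction with
    | mem x hx =>
      rcases hx with hx | hx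
      · exact hI1 x hx
      · have e : x = t * (t⁻¹ * x * t) * t⁻¹ := by simp [mul_assoc]
        have := HNNExtension.equiv_eq_conj (φ := φ) ⟨⟨t⁻¹ * x * t, hA (C_le n hx)⟩, hx⟩
        conv_lhs => rw [e, map_mul, map_mul, map_inv, hI2, hI1 _ (C_le n hx)]
        rw [← this]
        exact congrArg HNNExtension.of (Subtype.ext e.symm)
    | one => exact (map_one I).trans (map_one _).symm
    | mul x y hx hy h1 h2 => rw [map_mul, h1, h2]; exact (map_mul _ (⟨x, hx⟩ : H) ⟨y, hy⟩).symm
    | inv x hx h1 => rw [map_inv, h1]; exact (map_inv _ (⟨x, hx⟩ : H)).symm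
  · refine HNNExtension.hom_ext (MonoidHom.ext fun x => ?_) ?_
    · show F (I (ι x)) = ι x
      rw [hI1 _ ⟨x, rfl⟩, hF1]
    · show F (I t) = t
      rw [hI2, hF2]

theorem result : ∃ (G : Type) (_ : Group G) (A : Subgroup G) (B C : ℕ → Subgroup G),
    Group.FG G ∧ C 0 ≠ ⊥ ∧
    (∀ n, IsAmalgam A (B n) (C n) ∧ IsHNN (C n) ∧ Slender (C n) ∧ C n < C (n + 1)) ∧
    (¬ ∃ B' C' : Subgroup G, IsAmalgam A B' C' ∧ ∀ n, C' < C n) ∧
    (¬ ∃ C' : Subgroup G, IsHNN C' ∧ ∀ n, C' < C n) := by
  have hz : ι z0 ∈ C 0 := ⟨z0, mem_C0_zero.2 (Or.inr rfl), rfl⟩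
  refine ⟨G, inferInstance, A, B, C, fg, fun h => z_ne (mem_bot.1 (h ▸ hz)),
    fun n => ⟨amalgam n, hnn n, slender n, C_lt n⟩, ?_, ?_⟩
  · rintro ⟨B', C', ⟨-, -, -, h1, -, h2⟩, h3⟩
    obtain rfl := eq_bot (h3 0)
    obtain ⟨b, hb, hb1⟩ := (B'.bot_or_exists_ne_one).resolve_left h1.symm
    refine free_center (a := (⟨ι z0, C_le 0 hz⟩ : A)) (b := (⟨b, hb⟩ : B'))
      (fun h => z_ne (congrArg Subtype.val h)) (fun h => hb1 (congrArg Subtype.val h)) ?_
    have hinj : Function.Injective (Coprod.lift A.subtype B'.subtype) := by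
      rw [← MonoidHom.ker_eq_bot_iff, h2, eq_bot_iff]
      refine normalClosure_le_normal ?_
      rintro _ ⟨a, b, ha, hab, rfl⟩
      obtain rfl : a = 1 := Subtype.ext ha
      obtain rfl : b = 1 := Subtype.ext hab.symm
      simp
    apply hinj
    simpa using z_central b
  · rintro ⟨C', ⟨H, -, D, φ, e, -⟩, h3⟩
    obtain rfl := eq_bot (h3 0)
    have := hnn_center φ (bot_subgroupOf H) (e.symm (ι z0))
      (e.injective (by simpa using (z_central _).symm)) (by rw [← map_mul, z_sq, map_one])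
    exact z_ne (by simpa using this)

end Pool.Agent.Results.MP_4681e4_al.Counter
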